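import Pool.Agent.H608.Tk.AE
import Pool.Agent.H608.Tk.Thin
import Pool.Agent.H608.Tk.Kummer
import Mathlib

/-!
# Rohrlich's conjecture for Kummer's series with changed primes

Let `B (y) = 1 / 2 - {y}` (and `0` at the integers). By Kummer's formula
`log Γ (x) = (1 / 2 - x) (γ + log 2) + (1 - x) log π - log (sin π x) / 2 + (1 / π) ∑ (log n / n) sin (2 π n x)`, `0 < x < 1`.
Let `n ↦ n_E` be the completely multiplicative function with `p_E = f (p)` for the primes `p` of a set `E`, where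
`p / 2 ≤ f (p) ≤ 2 p`, `f (p) ≠ p` (for instance `f (p) = p + 1`), and `p_E = p` for the other primes, and let `GamE` be the function
obtained by writing `log n_E` for `log n` in this series, so that `GamE (x) = Γ (x) exp (Lam (x))` with
`Lam (x) = (1 / π) ∑ (log n_E - log n) sin (2 π n x) / n = ∑_{p ∈ E} log (f (p) / p) ∑_{k ≥ 1} B (p ^ k x) / p ^ k`. It satisfies the
translation and the reflection formula of the gamma function, and the multiplication formula with `N_E ^ (1 / 2 - x)` for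
`N ^ (1 / 2 - x)`. Let `A` be any set of primes which contains infinitely many elements of each reduced residue class and for
which the sum of the reciprocals converges; there are such sets as thin as one likes. We prove that for almost all subsets
`E` of `A` (fair coin tossing) all monomial relations between the values of `GamE` at rational points, modulo any given
countable set, are those predicted by Rohrlich's conjecture.
-/

set_option autoImplicit false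

namespace Pool.Agent.Results.MP_c2409d_nt.AlmostAllChangedPrimes

open Finset Filter Topology
open Pool.Agent.H608.Tw (B B_add_int Sparse Rich rich_primes)
open MeasureTheory
open Pool.Agent.H608.Tk

lemma B_mod {d p m : ℕ} (hpm : p ≡ m [MOD d]) {a : ℝ} (ha : ∃ z : ℤ, (d : ℝ) * a = z) : B (p * a) = B (m * a) := by
  obtain ⟨z, hz⟩ := ha
  obtain ⟨t, ht⟩ := (Nat.modEq_iff_dvd.1 hpm)
  have ht' : (m : ℝ) - p = d * t := by exact_mod_cast ht
  have h1 : (m : ℝ) * a = p * a + ((t * z : ℤ) : ℝ) := by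
    push_cast
    rw [← hz]
    linear_combination a * ht'
  rw [h1, B_add_int]

lemma mul_not_int {d m : ℕ} (hm : m.Coprime d) {a : ℝ} (ha : ∃ z : ℤ, (d : ℝ) * a = z) (hn : ∀ z : ℤ, a ≠ z) (z' : ℤ) :
    (m : ℝ) * a ≠ z' := by
  intro h
  obtain ⟨z, hz⟩ := ha
  obtain ⟨u, v, huv⟩ := Nat.isCoprime_iff_coprime.2 hm
  apply hn (u * z' + v * z)
  push_cast
  rw [← h, ← hz]
  have h1 : (u : ℝ) * m + v * d = 1 := by exact_mod_cast huv
  linear_combination (-a) * h1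

lemma B_nonint {y : ℝ} (hy : ∀ z : ℤ, y ≠ z) : B y = 1 / 2 - Int.fract y := by
  unfold B
  rw [if_neg]
  intro h
  apply hy ⌊y⌋
  have h1 := Int.floor_add_fract y
  rw [h, add_zero] at h1
  exact h1.symm

/-- the two forms of the condition -/
lemma sum_B_iff {r : ℕ} {a : Fin r → ℚ} {d : ℕ} (hd : 2 ≤ d) (ha : ∀ i, ∃ z : ℤ, (d : ℝ) * a i = z)
    (hn : ∀ i, ∀ z : ℤ, (a i : ℝ) ≠ z) :
    (∀ m : ℕ, m.Coprime d → ∑ i, ((1 : ℤ) : ℝ) * B (m * a i) = 0) ↔
      ∀ m : ℕ, 1 ≤ m → m ≤ d - 1 → m.Coprime d → ∑ i, Int.fract ((m : ℝ) * a i) = r / 2 := by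
  have h1 : ∀ m : ℕ, m.Coprime d → ∑ i, ((1 : ℤ) : ℝ) * B (m * a i) = r / 2 - ∑ i, Int.fract ((m : ℝ) * a i) := by
    intro m hm
    have h2 : ∀ i, ((1 : ℤ) : ℝ) * B (m * a i) = 1 / 2 - Int.fract ((m : ℝ) * a i) := by
      intro i
      rw [B_nonint (mul_not_int hm (ha i) (hn i)), Int.cast_one, one_mul]
    simp only [h2, sum_sub_distrib, sum_const, card_univ, Fintype.card_fin, nsmul_eq_mul]
    ring
  constructor
  · intro h m _ _ hm
    have h2 := h m hm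
    rw [h1 m hm] at h2
    linarith
  · intro h m hm
    have h3 : (m % d).Coprime d := by
      rw [Nat.Coprime, ← Nat.gcd_rec, Nat.gcd_comm]
      exact hm
    have h4 : 1 ≤ m % d := by
      rcases Nat.eq_zero_or_pos (m % d) with h5 | h5
      · rw [h5, Nat.coprime_zero_left] at h3
        omega
      · exact h5
    have h5 : m % d < d := Nat.mod_lt _ (by omega)
    have h6 : ∑ i, ((1 : ℤ) : ℝ) * B (m * a i) = ∑ i, ((1 : ℤ) : ℝ) * B ((m % d : ℕ) * a i) :=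
      sum_congr rfl fun i _ => by rw [B_mod (Nat.mod_modEq m d) (ha i)]
    rw [h6, h1 _ h3, h _ h4 (by omega) h3, sub_self]

lemma algebraic_rpow {x : ℝ} (hx : 0 < x) (ha : IsAlgebraic ℚ x) (s : ℚ) : IsAlgebraic ℚ (x ^ (s : ℝ)) := by
  apply IsAlgebraic.of_pow s.den_pos
  rw [← Real.rpow_natCast, ← Real.rpow_mul hx.le]
  have h1 : (s : ℝ) * (s.den : ℝ) = (s.num : ℝ) := by exact_mod_cast Rat.mul_den_eq_num s
  rw [h1, Real.rpow_intCast]
  obtain ⟨n, hn | hn⟩ := s.num.eq_nat_or_neg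
  · rw [hn, zpow_natCast]
    exact ha.pow n
  · rw [hn, zpow_neg, zpow_natCast]
    exact (ha.pow n).inv

lemma algebraic_prod {s : Finset ℕ} {g : ℕ → ℝ} (h : ∀ p ∈ s, IsAlgebraic ℚ (g p)) : IsAlgebraic ℚ (∏ p ∈ s, g p) :=
  prod_induction g (IsAlgebraic ℚ) (fun _ _ => IsAlgebraic.mul) isAlgebraic_one h

/-- for the empty set the function is the gamma function -/
lemma GamE_empty (f : ℕ → ℝ) (x : ℝ) : GamE f ∅ x = Real.Gamma x := by
  unfold GamE Lam
  simp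

theorem result :
    -- there are thin sets of primes
    Rich {p | p.Prime} ∧ (∀ A : Set ℕ, (∀ p ∈ A, p.Prime) → Rich A → ∀ ω : ℕ → ℕ, Tendsto ω atTop atTop → ∀ δ : ℝ, 0 < δ →
      ∃ A' ⊆ A, Rich A' ∧ Sparse A' ∧ recip A' ≤ δ ∧ ∀ k, ({p | p ∈ A' ∧ p ≤ k}).ncard ≤ ω k) ∧
    ∀ (A : Set ℕ) (f : ℕ → ℝ), (∀ p ∈ A, p.Prime ∧ (p : ℝ) / 2 ≤ f p ∧ f p ≤ 2 * p ∧ f p ≠ p) →
      (∀ p ∈ A, IsAlgebraic ℚ (f p)) → Rich A → Sparse A →
      -- for all subsets: Kummer's series, the functional equations, and their consequences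
      (∀ E ⊆ A, (∀ x, |Lam f E x| ≤ recip A) ∧
        (∀ x : ℝ, Tendsto (fun N : ℕ => 1 / Real.pi * ∑ n ∈ range N, (Real.log (NE f E (n + 1)) - Real.log ((n + 1 : ℕ) : ℝ)) *
          (Real.sin (2 * Real.pi * (n + 1) * x) / (n + 1))) atTop (𝓝 (Lam f E x))) ∧
        (∀ x : ℝ, x ≠ 0 → GamE f E (x + 1) = x * GamE f E x) ∧
        (∀ x : ℝ, GamE f E x * GamE f E (1 - x) = Real.pi / Real.sin (Real.pi * x)) ∧
        (∀ N : ℕ, 1 ≤ N → ∀ x : ℝ, 0 < x → x < 1 →
          (∏ j ∈ range N, GamE f E ((x + j) / N)) / (NE f E N ^ (1 / 2 - x) * GamE f E x) =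
            (∏ j ∈ range N, Real.Gamma ((x + j) / N)) / ((N : ℝ) ^ (1 / 2 - x) * Real.Gamma x)) ∧
        (∀ (r : ℕ) (n : Fin r → ℤ) (a : Fin r → ℚ) (d : ℕ), 1 ≤ d →
          (∀ m : ℕ, m.Coprime d → ∑ i, n i * B (m * a i) = 0) →
          ∃ β : ℝ, 0 < β ∧ IsAlgebraic ℚ β ∧ ∏ i, GamE f E (a i) ^ n i = β * ∏ i, Real.Gamma (a i) ^ n i)) ∧
      -- for almost all subsets there are no other relations, and Rohrlich's criterion holds
      ∀ K : Set ℝ, K.Countable → ∀ᵐ ε ∂toss,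
        (∀ (r : ℕ) (n : Fin r → ℤ) (a : Fin r → ℚ) (d : ℕ), 1 ≤ d → (∀ i, ∃ z : ℤ, (d : ℝ) * a i = z) →
          (∀ i, ∀ z : ℕ, (a i : ℝ) ≠ -z) → ∏ i, GamE f (Sub A ε) (a i) ^ n i ∈ K →
          ∀ m : ℕ, m.Coprime d → ∑ i, n i * B (m * a i) = 0) ∧
        (∀ (r : ℕ) (a : Fin r → ℚ) (d : ℕ), 2 ≤ d → (∀ i, ∃ z : ℤ, (d : ℝ) * a i = z) → (∀ i, ∀ z : ℤ, (a i : ℝ) ≠ z) →
          ((∃ α : ℝ, IsAlgebraic ℚ α ∧ ∏ i, GamE f (Sub A ε) (a i) = α * Real.pi ^ ((r : ℝ) / 2)) ↔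
            (∀ m : ℕ, 1 ≤ m → m ≤ d - 1 → m.Coprime d → ∑ i, Int.fract ((m : ℝ) * a i) = r / 2) ∧
              ∃ α : ℝ, IsAlgebraic ℚ α ∧ ∏ i, Real.Gamma (a i) = α * Real.pi ^ ((r : ℝ) / 2))) := by
  classical
  refine ⟨rich_primes, fun A hA hrich ω hω δ hδ => exists_thin hA hrich hω hδ, fun A f hA hf hrich hs => ?_⟩
  have hall : ∀ E ⊆ A, (∀ p ∈ E, Adm f p) ∧ Sparse E := by
    intro E hEA
    refine ⟨fun p hp => hA p (hEA hp), ?_⟩
    refine Summable.of_nonneg_of_le (fun p => ?_) (fun p => ?_) hs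
    · split_ifs
      · positivity
      · exact le_rfl
    · by_cases h : p ∈ E
      · rw [if_pos h, if_pos (hEA h)]
      · rw [if_neg h]
        split_ifs
        · positivity
        · exact le_rfl
  have hpow : ∀ E ⊆ A, ∀ (r : ℕ) (n : Fin r → ℤ) (a : Fin r → ℚ) (d : ℕ), 1 ≤ d →
      (∀ m : ℕ, m.Coprime d → ∑ i, n i * B (m * a i) = 0) →
      ∃ β : ℝ, 0 < β ∧ IsAlgebraic ℚ β ∧ ∏ i, GamE f E (a i) ^ n i = β * ∏ i, Real.Gamma (a i) ^ n i := by
    intro E hEA r n a d hd h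
    obtain ⟨hE, hsE⟩ := hall E hEA
    obtain ⟨s, h1⟩ := exists_rat_power hE hsE hd h
    have hpos : ∀ p ∈ d.primeFactors.filter (· ∈ E), 0 < f p / p := fun p hp => by
      have h2 := hE p (mem_filter.1 hp).2
      have h3 : (0 : ℝ) < p := by exact_mod_cast h2.1.pos
      exact div_pos h2.pos h3
    refine ⟨_, prod_pos fun p hp => Real.rpow_pos_of_pos (hpos p hp) _, algebraic_prod fun p hp => ?_, h1⟩
    apply algebraic_rpow (hpos p hp)
    rw [div_eq_mul_inv]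
    exact (hf p (hEA (mem_filter.1 hp).2)).mul (isAlgebraic_natCast p).inv
  refine ⟨fun E hEA => ?_, fun K hK => ?_⟩
  · obtain ⟨hE, hsE⟩ := hall E hEA
    exact ⟨fun x => Lam_le hA hs hEA x, fun x => kummer hE hsE x, fun x => GamE_add_one f E, GamE_reflection f E,
      fun N hN x h0 h1 => GamE_mult hE hsE hN h0 h1, hpow E hEA⟩
  obtain ⟨K', hK'⟩ : ∃ K' : Set ℝ, K' = K ∪ ⋃ r : ℕ, (fun α => α * Real.pi ^ ((r : ℝ) / 2)) '' {α : ℝ | IsAlgebraic ℚ α} :=
    ⟨_, rfl⟩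
  have hK'c : K'.Countable := by
    rw [hK']
    exact hK.union (Set.countable_iUnion fun r => (Algebraic.countable ℚ ℝ).image _)
  have hG : ∀ x : ℝ, (∀ z : ℕ, x ≠ -z) → Real.Gamma x ≠ 0 := fun x hx => Real.Gamma_ne_zero hx
  filter_upwards [ae_indep (f := f) hA hs flip_mp hrich (K := {1} ∪ (fun κ => -κ) '' K')
    ((Set.countable_singleton 1).union (hK'c.image _))] with ε hmain'
  -- monomials
  have hmain : ∀ (r : ℕ) (n : Fin r → ℤ) (a : Fin r → ℚ) (d m : ℕ), (∀ i, ∃ z : ℤ, (d : ℝ) * a i = z) →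
      (∀ i, Real.Gamma (a i) ≠ 0) → 1 ≤ d → m.Coprime d → ∑ i, n i * B (m * a i) ≠ 0 →
      ∏ i, GamE f (Sub A ε) (a i) ^ n i ∉ K' := by
    intro r n a d m h1 h2 h3 h4 h5 h6
    refine hmain' r 2 a ![n, 0] ![1, -(∏ i, GamE f (Sub A ε) (a i) ^ n i)] d h1 h2 h3 ?_ ?_ ?_ ?_
    · intro j k hjk
      refine ⟨m, h4, ?_⟩
      fin_cases j <;> fin_cases k <;> simp at hjk ⊢
      · simpa using h5
      · intro h7
        exact h5 h7.symm
    · intro j
      fin_cases j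
      · exact Or.inl rfl
      · exact Or.inr ⟨_, h6, rfl⟩
    · intro h7
      have h8 := congrFun h7 0
      simp at h8
    · rw [Fin.sum_univ_two]
      simp
  refine ⟨fun r n a d hd ha hz hmem m hm => ?_, fun r a d hd ha hn => ?_⟩
  · by_contra hne
    apply hmain r n a d m ha (fun i => hG _ (hz i)) hd hm hne
    rw [hK']
    exact Or.inl hmem
  · have hz : ∀ i, ∀ z : ℕ, (a i : ℝ) ≠ -z := by
      intro i z h
      apply hn i (-z)
      push_cast
      exact h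
    rw [← sum_B_iff hd ha hn]
    have hone : ∀ f : Fin r → ℝ, ∏ i, f i = ∏ i, f i ^ (1 : ℤ) := by
      intro f
      simp
    have hpi : Real.pi ^ ((r : ℝ) / 2) ≠ 0 := (Real.rpow_pos_of_pos Real.pi_pos _).ne'
    constructor
    · rintro ⟨α, hα, h1⟩
      have h2 : ∀ m : ℕ, m.Coprime d → ∑ i, ((1 : ℤ) : ℝ) * B (m * a i) = 0 := by
        intro m hm
        by_contra hne
        apply hmain r (fun _ => 1) a d m ha (fun i => hG _ (hz i)) (by omega) hm hne
        rw [hK', ← hone, h1]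
        exact Or.inr (Set.mem_iUnion.2 ⟨r, α, hα, rfl⟩)
      refine ⟨h2, ?_⟩
      obtain ⟨β, hβ0, hβ, hs'⟩ := hpow (Sub A ε) (fun _ hp => hp.1) r (fun _ : Fin r => (1 : ℤ)) a d (by omega) h2
      rw [← hone, ← hone, h1] at hs'
      refine ⟨β⁻¹ * α, hβ.inv.mul hα, ?_⟩
      rw [mul_assoc, hs', inv_mul_cancel_left₀ hβ0.ne']
    · rintro ⟨h2, α, hα, h1⟩
      obtain ⟨β, hβ0, hβ, hs'⟩ := hpow (Sub A ε) (fun _ hp => hp.1) r (fun _ : Fin r => (1 : ℤ)) a d (by omega) h2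
      rw [← hone, ← hone, h1] at hs'
      exact ⟨β * α, hβ.mul hα, by rw [hs', mul_assoc]⟩

end Pool.Agent.Results.MP_c2409d_nt.AlmostAllChangedPrimes
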